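import Pool.Agent.Helper22.TB.Goals

/-!
# Project TB (MP_74f661_nt), packet E2: the constant
-/

set_option autoImplicit false

open Finset Filter Topology

namespace Pool.Agent.Helper57.TB

open Pool.Agent.Helper22.TB
open Pool.Agent.Helper90.Twin (Ps Gz mem_Ps Gz_pos factor_pos)

/-- the primes `≤ z` -/
def pz (z : ℕ) : Finset ℕ := (range (z + 1)).filter Nat.Prime

/-- Mertens' product -/
noncomputable def Vp (z : ℕ) : ℝ := ∏ p ∈ pz z, (1 - 1 / (p : ℝ))

theorem Vp_eq (z : ℕ) : Vp z = Real.exp (-(Helper56.ax z)) := by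
  unfold Vp pz Helper56.ax
  rw [Nat.floor_natCast, ← Finset.sum_neg_distrib, Real.exp_sum, Finset.prod_filter]
  symm
  have hsub : Ioc 0 z ⊆ range (z + 1) := by
    intro n hn
    rw [mem_Ioc] at hn
    exact mem_range.2 (by omega)
  have h1 : ∀ n ∈ range (z + 1), n ∉ Ioc 0 z →
      Real.exp (-Helper56.al n) = 1 := by
    intro n hn hn2
    rw [mem_range] at hn
    rw [mem_Ioc] at hn2
    have : n = 0 := by omega
    subst this
    unfold Helper56.al
    rw [if_neg Nat.not_prime_zero]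
    simp
  rw [prod_subset hsub h1]
  apply Finset.prod_congr rfl
  intro n _
  unfold Helper56.al
  split_ifs with h
  · rw [neg_neg, Real.exp_log]
    have h2 : (2 : ℝ) ≤ n := by exact_mod_cast h.two_le
    have h3 : (1 : ℝ) / n ≤ 1 / 2 := by gcongr
    linarith
  · simp

theorem Vp_log : Tendsto (fun z : ℕ => Vp z * Real.log z) atTop
    (𝓝 (Real.exp (-Real.eulerMascheroniConstant))) := by
  have h0 : Tendsto (fun z : ℕ => Helper56.ax (z : ℝ) - Real.log (Real.log (z : ℝ))) atTop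
      (𝓝 Real.eulerMascheroniConstant) :=
    Helper56.ax_sub_loglog_tendsto.comp (tendsto_natCast_atTop_atTop (R := ℝ))
  have h := (Real.continuous_exp.tendsto _).comp h0.neg
  refine h.congr' ?_
  filter_upwards [eventually_ge_atTop 2] with z hz
  simp only [Function.comp]
  have hz2 : (2 : ℝ) ≤ z := by exact_mod_cast hz
  have hl : 0 < Real.log z := Real.log_pos (by linarith)
  rw [Vp_eq, neg_sub, sub_eq_add_neg, Real.exp_add, Real.exp_log hl]
  ring

theorem bq_small {p : ℕ} (h : p.Prime) (h5 : p < 5) : bq p = 0 := by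
  unfold bq
  apply if_neg
  intro hs
  have h1 : p = 2 ∨ p = 3 := by
    have h2 := h.two_le
    have h4 : p ≠ 4 := by rintro rfl; revert h; decide
    omega
  rcases h1 with rfl | rfl
  · have := hs.2; revert this; decide
  · have := hs.2; revert this; decide

theorem bq_prime {p : ℕ} (h : p.Prime) (h5 : 5 ≤ p) : 1 + bq p / p = (1 - 2 / (p : ℝ))⁻¹ := by
  have hs : SF6 p := by
    refine ⟨h.squarefree, ?_⟩
    have h1 : ¬ p ∣ 6 := by
      intro hd
      have h2 : p ∣ 2 * 3 := hd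
      rcases (Nat.Prime.dvd_mul h).1 h2 with h3 | h3
      · have := Nat.le_of_dvd (by norm_num) h3; omega
      · have := Nat.le_of_dvd (by norm_num) h3; omega
    exact (Nat.Prime.coprime_iff_not_dvd h).2 h1
  unfold bq gq
  rw [if_pos hs, h.primeFactors, prod_singleton]
  have hp : (5 : ℝ) ≤ p := by exact_mod_cast h5
  have h0 : (p : ℝ) ≠ 0 := by linarith
  have h2 : (p : ℝ) - 2 ≠ 0 := by linarith
  have e : 1 - 2 / (p : ℝ) = (p - 2) / p := by field_simp
  rw [e, inv_div]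
  field_simp
  ring

theorem R_eq (z : ℕ) : ∏ p ∈ pz z, ((1 - 1 / (p : ℝ)) ^ 2 * (1 + bq p / p)) = Vp z ^ 2 / Gz z := by
  rw [prod_mul_distrib, prod_pow]
  change Vp z ^ 2 * _ = _
  rw [div_eq_mul_inv]
  congr 1
  have hsub : Ps z ⊆ pz z := by
    intro p hp
    have := mem_Ps.1 hp
    unfold pz
    rw [mem_filter, mem_range]
    exact ⟨by omega, this.2.2⟩
  have h1 : ∀ p ∈ pz z, p ∉ Ps z → 1 + bq p / (p : ℝ) = 1 := by
    intro p hp hp2
    unfold pz at hp
    rw [mem_filter, mem_range] at hp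
    have h5 : p < 5 := by
      by_contra h
      exact hp2 (mem_Ps.2 ⟨by omega, by omega, hp.2⟩)
    rw [bq_small hp.2 h5]
    simp
  rw [← prod_subset hsub h1]
  unfold Gz Pool.Agent.Helper90.Twin.GG
  rw [← prod_inv_distrib]
  exact prod_congr rfl fun p hp => bq_prime (mem_Ps.1 hp).2.2 (mem_Ps.1 hp).1

theorem R_ge (z : ℕ) : (1 / 4 : ℝ) ^ 5 ≤ ∏ p ∈ pz z, ((1 - 1 / (p : ℝ)) ^ 2 * (1 + bq p / p)) := by
  have h1 : ∀ p ∈ pz z, (if p < 5 then (1 / 4 : ℝ) else 1) ≤
      (1 - 1 / (p : ℝ)) ^ 2 * (1 + bq p / p) := by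
    intro p hp
    unfold pz at hp
    rw [mem_filter, mem_range] at hp
    have h2 : (2 : ℝ) ≤ p := by exact_mod_cast hp.2.two_le
    have h3 : (1 : ℝ) / p ≤ 1 / 2 := one_div_le_one_div_of_le (by norm_num) h2
    split_ifs with h
    · rw [bq_small hp.2 h, zero_div, add_zero, mul_one]
      have h4 : (1 / 2 : ℝ) ≤ 1 - 1 / p := by linarith
      calc (1 / 4 : ℝ) = (1 / 2) ^ 2 := by norm_num
        _ ≤ (1 - 1 / (p : ℝ)) ^ 2 := pow_le_pow_left₀ (by norm_num) h4 2
    · rw [bq_prime hp.2 (by omega), ← div_eq_mul_inv]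
      have h5 : (5 : ℝ) ≤ p := by exact_mod_cast (by omega : 5 ≤ p)
      have h6 : (2 : ℝ) / p ≤ 2 / 5 := div_le_div_of_nonneg_left (by norm_num) (by norm_num) h5
      rw [le_div_iff₀ (by linarith), one_mul]
      have h7 : (1 - 1 / (p : ℝ)) ^ 2 = 1 - 2 / p + (1 / p) ^ 2 := by ring
      rw [h7]
      have : (0 : ℝ) ≤ (1 / (p : ℝ)) ^ 2 := sq_nonneg _
      linarith
  refine le_trans ?_ (prod_le_prod (fun p _ => by split_ifs <;> norm_num) h1)
  rw [prod_ite, prod_const_one, mul_one, prod_const]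
  apply pow_le_pow_of_le_one (by norm_num) (by norm_num)
  calc ((pz z).filter (fun p => p < 5)).card ≤ (range 5).card := by
        apply card_le_card
        intro p hp
        exact mem_range.2 (mem_filter.1 hp).2
    _ = 5 := card_range 5

theorem gE2 : G_E2 := by
  rintro ⟨κ, h1, h2⟩
  have hR : Tendsto (fun z : ℕ => ∏ p ∈ pz z, ((1 - 1 / (p : ℝ)) ^ 2 * (1 + bq p / p))) atTop
      (𝓝 κ) := h2.comp (tendsto_add_atTop_nat 1)
  have hκ : (1 / 4 : ℝ) ^ 5 ≤ κ := ge_of_tendsto' hR R_ge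
  have hκ0 : κ ≠ 0 := by
    have : (0 : ℝ) < (1 / 4 : ℝ) ^ 5 := by norm_num
    linarith
  have hG : Tendsto (fun z : ℕ => Gz z * Real.log z ^ 2) atTop
      (𝓝 (Real.exp (-Real.eulerMascheroniConstant) ^ 2 / κ)) := by
    have h3 := (Vp_log.pow 2).div hR hκ0
    refine h3.congr fun z => ?_
    rw [Pi.div_apply, R_eq]
    have hG0 := (Gz_pos z).ne'
    have hV0 : Vp z ≠ 0 := by rw [Vp_eq]; exact (Real.exp_pos _).ne'
    field_simp
  have hprod : Tendsto (fun x : ℝ × ℕ => GX x.1 / Real.log x.1 ^ 2 * (Gz x.2 * Real.log x.2 ^ 2))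
      (atTop ×ˢ atTop) (𝓝 (κ / 2 * (Real.exp (-Real.eulerMascheroniConstant) ^ 2 / κ))) :=
    (h1.comp tendsto_fst).mul (hG.comp tendsto_snd)
  have hlim : κ / 2 * (Real.exp (-Real.eulerMascheroniConstant) ^ 2 / κ)
      = Real.exp (-(2 * Real.eulerMascheroniConstant)) / 2 := by
    rw [← Real.exp_nat_mul]
    push_cast
    have : (2 : ℝ) * -Real.eulerMascheroniConstant = -(2 * Real.eulerMascheroniConstant) := by ring
    rw [this]
    field_simp
  rw [hlim] at hprod
  intro ε hε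
  have h4 := Metric.tendsto_nhds.1 hprod ε hε
  rw [eventually_prod_iff] at h4
  obtain ⟨pa, hpa, pb, hpb, h5⟩ := h4
  obtain ⟨N1, hN1⟩ := eventually_atTop.1 hpa
  obtain ⟨N2, hN2⟩ := eventually_atTop.1 hpb
  refine ⟨max N1 N2, fun K hK z hz => ?_⟩
  have h6 := h5 (hN1 K ((le_max_left _ _).trans hK))
    (hN2 z (by exact_mod_cast (le_max_right N1 (N2 : ℝ)).trans hz))
  rw [Real.dist_eq] at h6
  have e : Gz z * GX K / (Real.log K / Real.log z) ^ 2
      = GX K / Real.log K ^ 2 * (Gz z * Real.log z ^ 2) := by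
    rw [div_pow, div_div_eq_mul_div]
    ring
  rw [e]
  exact h6.le

end Pool.Agent.Helper57.TB
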