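import Pool.Agent.Helper22.TB.Goals

/-!
# Project TB (MP_74f661_nt), packet PDC: closure properties of `PD` and `PDU`
-/

set_option autoImplicit false

open Finset

namespace Pool.Agent.Helper57.TB

open Pool.Agent.Helper22.TB

theorem cos_mul_cos (x y : ℝ) :
    Real.cos x * Real.cos y = Real.cos (x + y) / 2 + Real.cos (x - y) / 2 := by
  rw [Real.cos_add, Real.cos_sub]
  ring

theorem pd_mul {f g : ℕ → ℝ} (hf : PD f) (hg : PD g) : PD (fun n => f n * g n) := by
  obtain ⟨ι, _, c, θ, hc, hf⟩ := hf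
  obtain ⟨κ, _, d, η, hd, hg⟩ := hg
  refine ⟨(ι × κ) × Bool, inferInstance, fun i => c i.1.1 * d i.1.2 / 2,
    fun i => if i.2 then θ i.1.1 + η i.1.2 else θ i.1.1 - η i.1.2, ?_, ?_⟩
  · intro i
    have := mul_nonneg (hc i.1.1) (hd i.1.2)
    positivity
  · intro n
    beta_reduce
    rw [hf, hg, sum_mul_sum, Fintype.sum_prod_type, Fintype.sum_prod_type]
    refine sum_congr rfl fun i _ => sum_congr rfl fun j _ => ?_
    rw [Fintype.sum_bool]
    simp only [if_true, Bool.false_eq_true, if_false]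
    rw [add_mul, sub_mul]
    have := cos_mul_cos (θ i * n) (η j * n)
    linear_combination (c i * d j) * this

theorem pd_add {f g : ℕ → ℝ} (hf : PD f) (hg : PD g) : PD (fun n => f n + g n) := by
  obtain ⟨ι, _, c, θ, hc, hf⟩ := hf
  obtain ⟨κ, _, d, η, hd, hg⟩ := hg
  refine ⟨ι ⊕ κ, inferInstance, Sum.elim c d, Sum.elim θ η, ?_, ?_⟩
  · rintro (i | j)
    · exact hc i
    · exact hd j
  · intro n
    beta_reduce
    rw [hf, hg, Fintype.sum_sum_type]
    rfl

theorem pd_zero : PD (fun _ => 0) :=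
  ⟨Empty, inferInstance, fun _ => 0, fun _ => 0, fun i => i.elim, fun n => by simp⟩

theorem pdu_pd {q : ℕ} {f : ℕ → ℝ} (hf : PDU q f) : PD f := by
  obtain ⟨ι, _, c, a, hc, _, hf⟩ := hf
  refine ⟨ι, inferInstance, c, fun i => 2 * Real.pi * a i / q, hc, ?_⟩
  intro n
  rw [hf]
  refine sum_congr rfl fun i _ => ?_
  congr 2
  ring

theorem pdu_mul {q q' : ℕ} {f g : ℕ → ℝ} (hq : 1 ≤ q) (hq' : 1 ≤ q') (hqq : Nat.Coprime q q')
    (hf : PDU q f) (hg : PDU q' g) : PDU (q * q') (fun n => f n * g n) := by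
  obtain ⟨ι, _, c, a, hc, ha, hf⟩ := hf
  obtain ⟨κ, _, d, b, hd, hb, hg⟩ := hg
  have hcop : IsCoprime (q : ℤ) (q' : ℤ) := Nat.isCoprime_iff_coprime.2 hqq
  have key : ∀ x y : ℤ, IsCoprime x (q : ℤ) → IsCoprime y (q' : ℤ) →
      IsCoprime (x * q' + y * q) ((q * q' : ℕ) : ℤ) := by
    intro x y hx hy
    push_cast
    refine IsCoprime.mul_right ?_ ?_
    · have h1 : IsCoprime (x * q') (q : ℤ) := IsCoprime.mul_left hx hcop.symm
      exact (IsCoprime.add_mul_right_left_iff (z := y)).2 h1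
    · have h1 : IsCoprime (y * q) (q' : ℤ) := IsCoprime.mul_left hy hcop
      rw [add_comm]
      exact (IsCoprime.add_mul_right_left_iff (z := x)).2 h1
  refine ⟨(ι × κ) × Bool, inferInstance, fun i => c i.1.1 * d i.1.2 / 2,
    fun i => if i.2 then a i.1.1 * q' + b i.1.2 * q else a i.1.1 * q' + (-b i.1.2) * q, ?_, ?_, ?_⟩
  · intro i
    have := mul_nonneg (hc i.1.1) (hd i.1.2)
    positivity
  · intro i
    beta_reduce
    by_cases h : i.2
    · rw [if_pos h]
      exact key _ _ (ha _) (hb _)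
    · rw [if_neg h]
      exact key _ _ (ha _) (hb _).neg_left
  · intro n
    have hq0 : (q : ℝ) ≠ 0 := by
      have : (1 : ℝ) ≤ q := by exact_mod_cast hq
      linarith
    have hq0' : (q' : ℝ) ≠ 0 := by
      have : (1 : ℝ) ≤ q' := by exact_mod_cast hq'
      linarith
    beta_reduce
    rw [hf, hg, sum_mul_sum, Fintype.sum_prod_type, Fintype.sum_prod_type]
    refine sum_congr rfl fun i _ => sum_congr rfl fun j _ => ?_
    rw [Fintype.sum_bool]
    simp only [if_true, Bool.false_eq_true, if_false]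
    push_cast
    have e1 : 2 * Real.pi * ((a i : ℝ) * q' + (b j : ℝ) * q) * n / ((q : ℝ) * q')
        = 2 * Real.pi * a i * n / q + 2 * Real.pi * b j * n / q' := by
      field_simp
    have e2 : 2 * Real.pi * ((a i : ℝ) * q' + -(b j : ℝ) * q) * n / ((q : ℝ) * q')
        = 2 * Real.pi * a i * n / q - 2 * Real.pi * b j * n / q' := by
      field_simp
      ring
    rw [e1, e2]
    have := cos_mul_cos (2 * Real.pi * a i * n / q) (2 * Real.pi * b j * n / q')
    linear_combination (c i * d j) * this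

theorem gPDC : G_PDC := by
  refine ⟨fun f g => pd_mul, ?_, ?_, ?_, ?_, ?_, fun q f => pdu_pd,
    fun q q' f g hq hq' hqq => pdu_mul hq hq' hqq, ?_⟩
  · intro ι s f hf
    induction s using Finset.cons_induction_on with
    | empty => simpa using pd_zero
    | cons a s ha ih =>
      have h1 : (fun n => ∑ i ∈ cons a s ha, f i n) = fun n => f a n + ∑ i ∈ s, f i n := by
        funext n
        rw [sum_cons]
      rw [h1]
      exact pd_add (hf a (mem_cons_self a s)) (ih fun i hi => hf i (mem_cons_of_mem hi))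
  · rintro c f hc ⟨ι, _, d, θ, hd, hf⟩
    refine ⟨ι, inferInstance, fun i => c * d i, θ, fun i => mul_nonneg hc (hd i), fun n => ?_⟩
    beta_reduce
    rw [hf, mul_sum]
    exact sum_congr rfl fun i _ => (mul_assoc _ _ _).symm
  · rintro m f ⟨ι, _, d, θ, hd, hf⟩
    refine ⟨ι, inferInstance, d, fun i => θ i * m, hd, fun n => ?_⟩
    beta_reduce
    rw [hf]
    refine sum_congr rfl fun i _ => ?_
    congr 2
    push_cast
    ring
  · rintro f ⟨ι, _, d, θ, hd, hf⟩
    refine ⟨∑ i, d i, fun n => ?_⟩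
    rw [hf]
    refine (abs_sum_le_sum_abs _ _).trans (sum_le_sum fun i _ => ?_)
    rw [abs_mul, abs_of_nonneg (hd i)]
    exact mul_le_of_le_one_right (hd i) (Real.abs_cos_le_one _)
  · exact ⟨Unit, inferInstance, fun _ => 1, fun _ => 0, fun _ => zero_le_one, fun n => by simp⟩
  · exact ⟨Unit, inferInstance, fun _ => 1, fun _ => 0, fun _ => zero_le_one,
      fun _ => ⟨0, 1, by simp⟩, fun n => by simp⟩

end Pool.Agent.Helper57.TB
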