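import Pool.Agent.Helper22.TB.Goals

/-!
# Project TB (MP_74f661_nt), packet RNK: pointwise bound of the tail
-/

set_option autoImplicit false

open Finset

namespace Pool.Agent.Helper57.TB

open Pool.Agent.Helper22.TB
open Pool.Agent.Helper90.Twin (Ps Gz mem_Ps)

theorem PP_primeFactors (L : ℕ) : (PP L).primeFactors = Ps L := by
  unfold PP
  exact Nat.primeFactors_prod fun p hp => (mem_Ps.1 hp).2.2

theorem PP_squarefree (L : ℕ) : Squarefree (PP L) := by
  unfold PP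
  refine Finset.squarefree_prod_of_pairwise_isCoprime ?_ ?_
  · intro p hp q hq hpq
    exact Nat.coprime_iff_isRelPrime.1
      ((Nat.coprime_primes (mem_Ps.1 hp).2.2 (mem_Ps.1 hq).2.2).2 hpq)
  · intro p hp
    exact (mem_Ps.1 hp).2.2.squarefree

/-- sum over the divisors of `PP L` of a completely explicit multiplicative function -/
theorem sum_div_PP (L : ℕ) (h : ℕ → ℝ) :
    ∑ q ∈ (PP L).divisors, ∏ p ∈ q.primeFactors, h p = ∏ p ∈ Ps L, (1 + h p) := by
  have h1 := (ArithmeticFunction.IsMultiplicative.prodPrimeFactors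
    (R := ℝ) h).prodPrimeFactors_one_add_of_squarefree (PP_squarefree L)
  rw [PP_primeFactors] at h1
  have h2 : ∏ p ∈ Ps L, (1 + (ArithmeticFunction.prodPrimeFactors h) p) = ∏ p ∈ Ps L, (1 + h p) := by
    refine prod_congr rfl fun p hp => ?_
    have hpp := (mem_Ps.1 hp).2.2
    rw [ArithmeticFunction.prodPrimeFactors_apply hpp.ne_zero, hpp.primeFactors, prod_singleton]
  rw [← h2, h1]
  refine sum_congr rfl fun q hq => ?_
  rw [ArithmeticFunction.prodPrimeFactors_apply]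
  exact (Nat.pos_of_mem_divisors hq).ne'

theorem sm_bound {p g : ℕ} (h5 : 5 ≤ p) :
    1 + (p : ℝ) * |sm p g| ≤ (1 + 12 / (p : ℝ)) * (if p ∣ g then 5 else 1) *
      (if p ∣ 3 * g - 1 then 2 else 1) * (if p ∣ 3 * g + 1 then 2 else 1) := by
  have hp : (5 : ℝ) ≤ p := by exact_mod_cast h5
  have hp0 : (0 : ℝ) < p := by linarith
  have hp2 : (0 : ℝ) < (p : ℝ) - 2 := by linarith
  have h12 : (1 : ℝ) ≤ 1 + 12 / (p : ℝ) := by
    have : (0 : ℝ) ≤ 12 / (p : ℝ) := by positivity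
    linarith
  set a : ℝ := (if p ∣ 3 * g - 1 then 2 else 1) with ha
  set b : ℝ := (if p ∣ 3 * g + 1 then 2 else 1) with hb
  have ha1 : 1 ≤ a := by rw [ha]; split_ifs <;> norm_num
  have hb1 : 1 ≤ b := by rw [hb]; split_ifs <;> norm_num
  have hab : 1 ≤ a * b := one_le_mul_of_one_le_of_one_le ha1 hb1
  unfold sm
  by_cases h1 : p ∣ g
  · rw [if_pos h1, if_pos h1, abs_of_pos (by positivity)]
    have h2 : 1 + (p : ℝ) * (2 / ((p : ℝ) - 2)) ≤ 5 := by
      have h3 : (p : ℝ) * (2 / ((p : ℝ) - 2)) ≤ 4 := by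
        rw [mul_div_assoc', div_le_iff₀ hp2]
        linarith
      linarith
    have h4 : (5 : ℝ) ≤ (1 + 12 / (p : ℝ)) * 5 := by linarith
    have h5 : (1 + 12 / (p : ℝ)) * 5 ≤ (1 + 12 / (p : ℝ)) * 5 * (a * b) :=
      le_mul_of_one_le_right (by positivity) hab
    calc 1 + (p : ℝ) * (2 / ((p : ℝ) - 2)) ≤ (1 + 12 / (p : ℝ)) * 5 * (a * b) := by linarith
      _ = _ := by ring
  · rw [if_neg h1, if_neg h1]
    by_cases h2 : p ∣ 3 * g - 1 ∨ p ∣ 3 * g + 1
    · rw [if_pos h2]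
      have h3 : (2 : ℝ) ≤ a * b := by
        rcases h2 with h2 | h2
        · have : a = 2 := by rw [ha, if_pos h2]
          rw [this]; linarith
        · have : b = 2 := by rw [hb, if_pos h2]
          rw [this]; linarith
      have h4 : 0 ≤ ((p : ℝ) - 4) / ((p : ℝ) - 2) ^ 2 := div_nonneg (by linarith) (by positivity)
      rw [abs_of_nonneg h4]
      have h6 : (p : ℝ) * (((p : ℝ) - 4) / ((p : ℝ) - 2) ^ 2) ≤ 1 := by
        rw [mul_div_assoc', div_le_one (by positivity)]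
        nlinarith
      have h7 : a * b ≤ (1 + 12 / (p : ℝ)) * (a * b) := le_mul_of_one_le_left (by positivity) h12
      calc 1 + (p : ℝ) * (((p : ℝ) - 4) / ((p : ℝ) - 2) ^ 2) ≤ (1 + 12 / (p : ℝ)) * (a * b) := by
            linarith
        _ = _ := by ring
    · rw [if_neg h2]
      have h4 : |(-4 : ℝ) / ((p : ℝ) - 2) ^ 2| = 4 / ((p : ℝ) - 2) ^ 2 := by
        rw [abs_div, abs_of_pos (show (0 : ℝ) < ((p : ℝ) - 2) ^ 2 by positivity)]
        norm_num
      rw [h4]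
      have h6 : (p : ℝ) * (4 / ((p : ℝ) - 2) ^ 2) ≤ 12 / p := by
        rw [mul_div_assoc', div_le_div_iff₀ (by positivity) hp0]
        nlinarith
      have h7 : 1 + 12 / (p : ℝ) ≤ (1 + 12 / (p : ℝ)) * (a * b) :=
        le_mul_of_one_le_right (by positivity) hab
      calc 1 + (p : ℝ) * (4 / ((p : ℝ) - 2) ^ 2) ≤ (1 + 12 / (p : ℝ)) * (a * b) := by linarith
        _ = _ := by ring

theorem prod_ite_le (L m : ℕ) (hm : m ≠ 0) (c : ℝ) (hc : 1 ≤ c) :
    ∏ p ∈ Ps L, (if p ∣ m then c else 1) ≤ c ^ m.primeFactors.card := by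
  rw [prod_ite, prod_const_one, mul_one, prod_const]
  apply pow_le_pow_right₀ hc
  apply card_le_card
  intro p hp
  rw [mem_filter] at hp
  exact Nat.mem_primeFactors.2 ⟨(mem_Ps.1 hp.1).2.2, hp.2, hm⟩

theorem gRNK : G_RNK := by
  classical
  intro L g M hM hg
  have h1 : ∑ q ∈ (PP L).divisors, (q : ℝ) * |sq q g| = ∏ p ∈ Ps L, (1 + (p : ℝ) * |sm p g|) := by
    rw [← sum_div_PP]
    refine sum_congr rfl fun q hq => ?_
    have hsq : Squarefree q := (PP_squarefree L).squarefree_of_dvd (Nat.dvd_of_mem_divisors hq)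
    unfold Pool.Agent.Helper22.TB.sq
    rw [prod_mul_distrib, abs_prod]
    congr 1
    rw [← Nat.cast_prod, Nat.prod_primeFactors_of_squarefree hsq]
  have h2 : ∑ q ∈ (PP L).divisors.filter (fun q : ℕ => M < (q : ℝ)), |sq q g|
      ≤ M⁻¹ * ∑ q ∈ (PP L).divisors, (q : ℝ) * |sq q g| := by
    rw [mul_sum]
    have h3 : ∑ q ∈ (PP L).divisors.filter (fun q : ℕ => M < (q : ℝ)), |sq q g|
        ≤ ∑ q ∈ (PP L).divisors.filter (fun q : ℕ => M < (q : ℝ)), M⁻¹ * ((q : ℝ) * |sq q g|) := by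
      refine sum_le_sum fun q hq => ?_
      have hq' := (mem_filter.1 hq).2
      rw [← mul_assoc]
      apply le_mul_of_one_le_left (abs_nonneg _)
      rw [inv_mul_eq_div, le_div_iff₀ hM]
      linarith
    refine h3.trans ?_
    apply sum_le_sum_of_subset_of_nonneg (filter_subset _ _)
    intro q _ _
    positivity
  refine h2.trans ?_
  rw [h1]
  have h3 : ∏ p ∈ Ps L, (1 + (p : ℝ) * |sm p g|) ≤ ∏ p ∈ Ps L, ((1 + 12 / (p : ℝ)) *
      (if p ∣ g then 5 else 1) * (if p ∣ 3 * g - 1 then 2 else 1) *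
      (if p ∣ 3 * g + 1 then 2 else 1)) := by
    apply prod_le_prod
    · intro p _; positivity
    · intro p hp
      exact sm_bound (mem_Ps.1 hp).1
  rw [prod_mul_distrib, prod_mul_distrib, prod_mul_distrib] at h3
  have hA0 : 0 ≤ ∏ p ∈ Ps L, (1 + 12 / (p : ℝ)) := prod_nonneg fun p _ => by positivity
  have b1 := prod_ite_le L g (by omega) 5 (by norm_num)
  have b2 := prod_ite_le L (3 * g - 1) (by omega) 2 (by norm_num)
  have b3 := prod_ite_le L (3 * g + 1) (by omega) 2 (by norm_num)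
  have n1 : (0 : ℝ) ≤ ∏ p ∈ Ps L, (if p ∣ g then (5 : ℝ) else 1) :=
    prod_nonneg fun p _ => by split_ifs <;> norm_num
  have n2 : (0 : ℝ) ≤ ∏ p ∈ Ps L, (if p ∣ 3 * g - 1 then (2 : ℝ) else 1) :=
    prod_nonneg fun p _ => by split_ifs <;> norm_num
  have n3 : (0 : ℝ) ≤ ∏ p ∈ Ps L, (if p ∣ 3 * g + 1 then (2 : ℝ) else 1) :=
    prod_nonneg fun p _ => by split_ifs <;> norm_num
  have h4 : (∏ p ∈ Ps L, (1 + 12 / (p : ℝ))) * (∏ p ∈ Ps L, (if p ∣ g then (5 : ℝ) else 1)) *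
      (∏ p ∈ Ps L, (if p ∣ 3 * g - 1 then (2 : ℝ) else 1)) *
      (∏ p ∈ Ps L, (if p ∣ 3 * g + 1 then (2 : ℝ) else 1))
      ≤ (∏ p ∈ Ps L, (1 + 12 / (p : ℝ))) * 5 ^ g.primeFactors.card *
      2 ^ (3 * g - 1).primeFactors.card * 2 ^ (3 * g + 1).primeFactors.card := by
    apply mul_le_mul _ b3 n3 (by positivity)
    apply mul_le_mul _ b2 n2 (by positivity)
    exact mul_le_mul_of_nonneg_left b1 hA0
  have h5 := mul_le_mul_of_nonneg_left (h3.trans h4) (inv_pos.2 hM).le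
  refine h5.trans (le_of_eq ?_)
  ring

end Pool.Agent.Helper57.TB
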