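import Pool.Agent.Helper33.TB.Goals

/-!
# Project TB (MP_74f661_nt), packet ABS: the abstract theorem
-/

set_option autoImplicit false

open Finset

namespace Pool.Agent.Helper57.TB

open Pool.Agent.Helper33.TB

theorem absd (hID : StmtID) (hT1 : StmtT1) (hT4 : StmtT4) : StmtABS := by
  intro Q X hX τ b ε δ F V hτ hτ1 hε hε2 hδ h2 hβ hC hPF hPV hRF hRV hFb hVb he
  set ρ : ℝ := Av Q X with hρ
  have hb0 : (0 : ℝ) ≤ b := Nat.cast_nonneg b
  have hρ0 : 0 < ρ := by
    by_contra h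
    have : ρ * b ≤ 0 := mul_nonpos_of_nonpos_of_nonneg (not_lt.1 h) hb0
    linarith
  have hX0 : ∀ t, 0 ≤ X t := fun t => by rcases hX.zo t with h | h <;> simp [h]
  have hX1 : ∀ t, X t ≤ 1 := fun t => by rcases hX.zo t with h | h <;> simp [h]
  have hQ : (0 : ℝ) < Q := by exact_mod_cast hX.pos
  have hρ1 : ρ ≤ 1 := by
    rw [hρ]
    unfold Av
    rw [div_le_one hQ]
    calc ∑ t ∈ range Q, X (t : ℤ) ≤ ∑ t ∈ range Q, (1 : ℝ) := sum_le_sum fun t _ => hX1 _
      _ = Q := by simp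
  obtain ⟨i1, i2, i3⟩ := hID Q X hX τ (τ * ρ) F V hPF hPV hRF hRV
  have t1 := hT1 Q X hX τ b ε δ F V hτ hτ1 hε hε2 hδ h2 hβ hC hPF hPV hRF hRV hFb hVb
  have t4 := hT4 Q X hX τ b ε δ F hτ hτ1 hε hε2 hδ h2 hβ hC hPF hRF hFb
  rw [← hρ] at t1 t4 i2 i3
  set β : ℝ := ρ * b * Real.sqrt τ with hβd
  set d : ℝ := δ * (b + 1) ^ 3 / (τ * ρ ^ 2) with hd
  set e : ℝ := ε + β + d with hed
  have hβ0 : 0 ≤ β := by rw [hβd]; positivity
  have hd0 : 0 ≤ d := by rw [hd]; positivity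
  have he0 : 0 ≤ e := by rw [hed]; positivity
  have hdd : δ / (τ * ρ ^ 2) ≤ d := by
    rw [hd]
    apply div_le_div_of_nonneg_right _ (by positivity)
    have : (1 : ℝ) ≤ ((b : ℝ) + 1) ^ 3 := one_le_pow₀ (by linarith)
    exact le_mul_of_one_le_right hδ this
  set aF : ℝ := Av Q (fun t => X t * F t) with haF
  set aV : ℝ := Av Q (fun t => X t * V t) with haV
  set v : ℝ := Av Q (fun t => V t ^ 2) with hv
  set y : ℝ := Av Q (fun t => F t ^ 2) with hy
  set x : ℝ := Av Q (fun t => X t * F t ^ 2) with hx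
  have hv0 : 0 ≤ v := by rw [hv]; unfold Av; positivity
  have hy0 : 0 ≤ y := by rw [hy]; unfold Av; positivity
  have hx0 : 0 ≤ x := by
    rw [hx]; unfold Av
    apply div_nonneg _ hQ.le
    exact sum_nonneg fun t _ => mul_nonneg (hX0 _) (sq_nonneg _)
  set D : ℝ := |aF - aV| with hD
  have hD0 : 0 ≤ D := abs_nonneg _
  have hE : D = |Av Q (fun t => (τ * X t - τ * ρ) * V t * F t)| := by
    rw [hD, i1]
    rw [show aV - Av Q (fun t => (τ * X t - τ * ρ) * V t * F t) - aV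
      = -Av Q (fun t => (τ * X t - τ * ρ) * V t * F t) by ring, abs_neg]
  rw [← hE] at t1
  have haV0 : 0 ≤ |aV| := abs_nonneg _
  have haFD : |aF| ≤ |aV| + D := by
    have := abs_add_le aV (aF - aV)
    rw [add_sub_cancel] at this
    exact this
  -- bound of v
  have hs0 : 0 < τ * ρ := mul_pos hτ hρ0
  have hs1 : τ * ρ ≤ 1 := mul_le_one₀ hτ1 hρ0.le hρ1
  have hvb : τ * v * ρ ≤ ρ + 2 * |aV| := by
    have h1 : (2 - τ * ρ) * (τ * ρ * v) = ρ + 2 * (1 - τ * ρ) * aV := by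
      rw [← i2]; ring
    have h3 : (1 - τ * ρ) * aV ≤ |aV| := by
      have h4 : (1 - τ * ρ) * aV ≤ (1 - τ * ρ) * |aV| :=
        mul_le_mul_of_nonneg_left (le_abs_self _) (by linarith)
      have h5 : (1 - τ * ρ) * |aV| ≤ 1 * |aV| := mul_le_mul_of_nonneg_right (by linarith) haV0
      linarith
    have h6 : 0 ≤ τ * ρ * v := by positivity
    have h7 : 1 * (τ * ρ * v) ≤ (2 - τ * ρ) * (τ * ρ * v) :=
      mul_le_mul_of_nonneg_right (by linarith) h6
    have h8 : τ * v * ρ = τ * ρ * v := by ring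
    rw [h8]
    linarith
  -- bound of x
  have hxb : τ * x ≤ ρ + 2 * |aF| := by
    have h3 : (1 - τ) * aF ≤ |aF| := by
      have h4 : (1 - τ) * aF ≤ (1 - τ) * |aF| :=
        mul_le_mul_of_nonneg_left (le_abs_self _) (by linarith)
      have h5 : (1 - τ) * |aF| ≤ 1 * |aF| :=
        mul_le_mul_of_nonneg_right (by linarith) (abs_nonneg aF)
      linarith
    have h6 : 0 ≤ τ * x := by positivity
    have h7 : 1 * (τ * x) ≤ (2 - τ) * (τ * x) := mul_le_mul_of_nonneg_right (by linarith) h6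
    have h8 : τ * (2 - τ) * x = (2 - τ) * (τ * x) := by ring
    linarith
  have hyb : τ * y * ρ ≤ 4 * (ρ + 2 * |aF|) + 145 * e * ρ := by
    have h1 : τ * y * ρ ≤ (4 * (τ * x / ρ) + 145 * e) * ρ :=
      mul_le_mul_of_nonneg_right t4 hρ0.le
    have h3 : (4 * (τ * x / ρ) + 145 * e) * ρ = 4 * (τ * x) + 145 * e * ρ := by
      field_simp
    rw [h3] at h1
    linarith
  have hmain : D ≤ 37 * e * (151 * ρ + 10 * |aV| + 8 * D) := by
    have h1 : D ≤ 37 * ρ * e * (1 + τ * v + τ * y) := by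
      refine t1.trans ?_
      apply mul_le_mul_of_nonneg_right _ (by positivity)
      apply mul_le_mul_of_nonneg_left _ (by positivity)
      rw [hed]
      linarith
    have h3 : 37 * ρ * e * (1 + τ * v + τ * y) = 37 * e * (ρ + τ * v * ρ + τ * y * ρ) := by ring
    rw [h3] at h1
    refine h1.trans ?_
    apply mul_le_mul_of_nonneg_left _ (by positivity)
    have h4 : e * ρ ≤ 1 * ρ := mul_le_mul_of_nonneg_right (by linarith) hρ0.le
    linarith
  have h296 : 37 * e * (8 * D) ≤ D / 2 := by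
    have h6 : e ≤ 1 / 12000 := by linarith
    have h7 : e * D ≤ 1 / 12000 * D := mul_le_mul_of_nonneg_right h6 hD0
    linarith
  have h5 : D ≤ 74 * e * (151 * ρ + 10 * |aV|) := by
    have h6 : 37 * e * (151 * ρ + 10 * |aV| + 8 * D)
      = 37 * e * (151 * ρ + 10 * |aV|) + 37 * e * (8 * D) := by ring
    linarith
  refine h5.trans ?_
  have h8 : 0 ≤ e * ρ := mul_nonneg he0 hρ0.le
  have h9 : 0 ≤ e * |aV| := mul_nonneg he0 haV0
  have h10 : 12000 * e * (ρ + |aV|) - 74 * e * (151 * ρ + 10 * |aV|)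
    = 826 * (e * ρ) + 11260 * (e * |aV|) := by ring
  linarith

end Pool.Agent.Helper57.TB
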