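import Pool.Agent.Helper33.TB.Goals

/-!
# Project TB (MP_74f661_nt), packet CH: Chernoff bound
-/

set_option autoImplicit false

open Finset

namespace Pool.Agent.Helper57.TB

open Pool.Agent.Helper33.TB

theorem Av_mono {Q : ℕ} {f g : ℤ → ℝ} (h : ∀ t, f t ≤ g t) : Av Q f ≤ Av Q g := by
  unfold Av
  apply div_le_div_of_nonneg_right _ (Nat.cast_nonneg _)
  exact sum_le_sum fun t _ => h _

theorem Av_add (Q : ℕ) (f g : ℤ → ℝ) : Av Q (fun t => f t + g t) = Av Q f + Av Q g := by
  unfold Av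
  rw [sum_add_distrib, add_div]

theorem Av_const_mul (Q : ℕ) (c : ℝ) (f : ℤ → ℝ) : Av Q (fun t => c * f t) = c * Av Q f := by
  unfold Av
  rw [← mul_sum, mul_div_assoc]

theorem ch (hMG : StmtMG) : StmtCH := by
  classical
  intro P b w hw hP U hU ε hε hε1
  set u : ℝ := (U.card : ℝ) with hu
  set g : ℝ := gS P with hg
  set S : ℝ := ∑ p ∈ P, 1 / (p : ℝ) with hS
  set M : ℝ := 2 * ((b : ℝ) / w + 1) with hM
  have hS0 : 0 ≤ S := by rw [hS]; exact sum_nonneg fun p _ => by positivity
  have hM0 : 2 ≤ M := by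
    rw [hM]
    have : (0 : ℝ) ≤ (b : ℝ) / w := by positivity
    linarith
  have hu0 : 0 ≤ u := Nat.cast_nonneg _
  have hMS : 0 < M * (1 + S) := by positivity
  set l : ℝ := ε / (16 * (M * (1 + S))) with hl
  have hl0 : 0 < l := by rw [hl]; positivity
  have hlM : l * (16 * (M * (1 + S))) = ε := by rw [hl]; field_simp
  have key : ∀ l' : ℝ, |l'| = l → Av (QS P) (fun t => Real.exp (l' * ∑ i ∈ U, XS P (t + (i : ℤ)))) ≤
      Real.exp (u * (l' * g + 8 * l ^ 2 * M * S)) := by
    intro l' hl'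
    have h1 := hMG P b w hw hP U hU l' (by
      rw [hl', ← hM, ← hS]
      nlinarith)
    rw [← hM, ← hS, ← hu, ← hg, ← sq_abs l', hl'] at h1
    exact h1
  have k1 := key l (abs_of_pos hl0)
  have k2 := key (-l) (by rw [abs_neg, abs_of_pos hl0])
  have hpt : ∀ t : ℤ, (if ε * u < |(∑ i ∈ U, XS P (t + (i : ℤ))) - g * u| then (1 : ℝ) else 0) ≤
      Real.exp (-(l * g * u) - l * ε * u) * Real.exp (l * ∑ i ∈ U, XS P (t + (i : ℤ))) +
      Real.exp (l * g * u - l * ε * u) * Real.exp (-l * ∑ i ∈ U, XS P (t + (i : ℤ))) := by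
    intro t
    set n : ℝ := ∑ i ∈ U, XS P (t + (i : ℤ)) with hn
    split_ifs with h
    · rcases lt_abs.1 h with h1 | h1
      · have h2 : 1 ≤ Real.exp (-(l * g * u) - l * ε * u) * Real.exp (l * n) := by
          rw [← Real.exp_add, ← Real.exp_zero]
          apply Real.exp_le_exp.2
          nlinarith
        have h3 := Real.exp_pos (l * g * u - l * ε * u)
        have h4 := Real.exp_pos (-l * n)
        nlinarith [mul_pos h3 h4]
      · have h2 : 1 ≤ Real.exp (l * g * u - l * ε * u) * Real.exp (-l * n) := by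
          rw [← Real.exp_add, ← Real.exp_zero]
          apply Real.exp_le_exp.2
          nlinarith
        have h3 := Real.exp_pos (-(l * g * u) - l * ε * u)
        have h4 := Real.exp_pos (l * n)
        nlinarith [mul_pos h3 h4]
    · positivity
  have h1 := Av_mono (Q := QS P) hpt
  rw [Av_add, Av_const_mul, Av_const_mul] at h1
  refine h1.trans ?_
  have e1 : Real.exp (-(l * g * u) - l * ε * u) *
      Av (QS P) (fun t => Real.exp (l * ∑ i ∈ U, XS P (t + (i : ℤ)))) ≤
      Real.exp (-(ε ^ 2 * u / (32 * M * (1 + S)))) := by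
    refine (mul_le_mul_of_nonneg_left k1 (Real.exp_pos _).le).trans ?_
    rw [← Real.exp_add]
    apply Real.exp_le_exp.2
    have h2 : ε ^ 2 * u / (32 * M * (1 + S)) = l * ε * u / 2 := by
      rw [hl]; field_simp; ring
    rw [h2]
    have h3 : 8 * l ^ 2 * M * S ≤ l * ε / 2 := by
      have : l * ε / 2 = 8 * l ^ 2 * (M * (1 + S)) := by rw [← hlM]; ring
      rw [this]
      have h4 : 0 ≤ l ^ 2 * M := by positivity
      nlinarith
    nlinarith
  have e2 : Real.exp (l * g * u - l * ε * u) *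
      Av (QS P) (fun t => Real.exp (-l * ∑ i ∈ U, XS P (t + (i : ℤ)))) ≤
      Real.exp (-(ε ^ 2 * u / (32 * M * (1 + S)))) := by
    refine (mul_le_mul_of_nonneg_left k2 (Real.exp_pos _).le).trans ?_
    rw [← Real.exp_add]
    apply Real.exp_le_exp.2
    have h2 : ε ^ 2 * u / (32 * M * (1 + S)) = l * ε * u / 2 := by
      rw [hl]; field_simp; ring
    rw [h2]
    have h3 : 8 * l ^ 2 * M * S ≤ l * ε / 2 := by
      have : l * ε / 2 = 8 * l ^ 2 * (M * (1 + S)) := by rw [← hlM]; ring
      rw [this]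
      have h4 : 0 ≤ l ^ 2 * M := by positivity
      nlinarith
    nlinarith
  linarith

end Pool.Agent.Helper57.TB
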