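import Pool.Agent.Helper33.TB.Goals

/-!
# Project TB (MP_74f661_nt), packet FL: equidistribution in all blocks of length `≥ w^K`
-/

set_option autoImplicit false

open Finset Filter Topology

namespace Pool.Agent.Helper57.TB

open Pool.Agent.Helper33.TB
open Pool.Agent.Helper90.Twin (Ps Gz Sz Adm nu mem_Ps Gz_pos inv_Gz_le tendsto_Sz LL LL_ge_one
  inv_Gz_le_pow fundamental)

/-- the sum over `p` consecutive integers does not depend on the start -/
theorem sum_period (p : ℕ) (f : ℤ → ℝ) (hf : ∀ t : ℤ, f (t + p) = f t) (t : ℤ) :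
    ∑ x ∈ range p, f (t + (x : ℤ)) = ∑ x ∈ range p, f (x : ℤ) := by
  have step : ∀ t : ℤ, ∑ x ∈ range p, f (t + 1 + (x : ℤ)) = ∑ x ∈ range p, f (t + (x : ℤ)) := by
    intro t
    have h1 := sum_range_succ (fun x : ℕ => f (t + (x : ℤ))) p
    have h2 := sum_range_succ' (fun x : ℕ => f (t + (x : ℤ))) p
    rw [h1] at h2
    have h3 : ∑ x ∈ range p, f (t + ((x + 1 : ℕ) : ℤ)) = ∑ x ∈ range p, f (t + 1 + (x : ℤ)) := by
      refine sum_congr rfl fun x _ => ?_
      congr 1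
      push_cast
      ring
    rw [h3] at h2
    have h4 : f (t + ((0 : ℕ) : ℤ)) = f (t + (p : ℤ)) := by
      rw [hf]; simp
    rw [h4] at h2
    linarith
  induction t using Int.induction_on with
  | zero => simp
  | succ n ih => rw [step, ih]
  | pred n ih => rw [← ih, ← step, sub_add_cancel]

theorem nu_yI (hXSB : StmtXSB) {p : ℕ} (hp : p.Prime) (h5 : 5 ≤ p) (t : ℤ) :
    nu (fun p x => yI p (t + (x : ℤ))) p = 2 := by
  unfold nu
  rw [sum_period p (yI p) (hXSB.yper p) t]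
  have h1 := hXSB.two p hp h5
  unfold Av at h1
  have hp0 : (p : ℝ) ≠ 0 := by
    have : (5 : ℝ) ≤ p := by exact_mod_cast h5
    linarith
  field_simp at h1
  exact h1

theorem adm_yI (hXSB : StmtXSB) (t : ℤ) : Adm (fun p x => yI p (t + (x : ℤ))) 2 where
  nonneg := fun p _ _ x => by rcases hXSB.yzo p (t + (x : ℤ)) with h | h <;> simp [h]
  le_one := fun p _ _ x => by rcases hXSB.yzo p (t + (x : ℤ)) with h | h <;> simp [h]
  per := fun p _ _ x => by
    have h := hXSB.yper p (t + (x : ℤ))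
    rw [← h]
    congr 1
    push_cast
    ring
  nu_le := fun p hp h5 => (nu_yI hXSB hp h5 t).le

theorem LL_le (w : ℕ) (hw : 2 ≤ w) : LL w ≤ 4 * Real.log w := by
  unfold LL
  have hw' : (2 : ℝ) ≤ w := by exact_mod_cast hw
  have hlog2 : (0.69 : ℝ) < Real.log 2 := by have := Real.log_two_gt_d9; linarith
  have h1 : (Nat.log 2 w : ℝ) * Real.log 2 ≤ Real.log w := by
    rw [← Real.log_pow]
    apply Real.log_le_log (by positivity)
    have := Nat.pow_log_le_self 2 (show w ≠ 0 by omega)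
    exact_mod_cast this
  have h2 : Real.log 2 ≤ Real.log w := Real.log_le_log (by norm_num) hw'
  have h3 : (0 : ℝ) ≤ (Nat.log 2 w : ℝ) := Nat.cast_nonneg _
  nlinarith

theorem fl (hXSB : StmtXSB) : StmtFL := by
  intro ε hε
  obtain ⟨K, hK⟩ := fundamental (κ := 2) (by norm_num) (δ := ε / 3) (by positivity) (A := 5)
    (by norm_num)
  refine ⟨K + 1, ?_⟩
  have hS : ∀ᶠ w : ℕ in atTop, Real.exp (-(5 / 3 * Sz w)) ≤ ε / 3 := by
    have h1 : Tendsto (fun w : ℕ => Real.exp (-(5 / 3 * Sz w))) atTop (𝓝 0) := by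
      apply Real.tendsto_exp_neg_atTop_nhds_zero.comp
      exact tendsto_Sz.const_mul_atTop (by norm_num)
    exact (h1.eventually (gt_mem_nhds (by positivity))).mono fun _ h => le_of_lt h
  have hL : ∀ᶠ w : ℕ in atTop, Real.exp 14 * (4 * Real.log w) ^ 14 ≤ ε / 3 * w := by
    have h1 : (fun x : ℝ => Real.log x ^ 14) =o[atTop] (fun x : ℝ => x) :=
      Real.isLittleO_pow_log_id_atTop
    have h2 := h1.bound (show (0 : ℝ) < ε / (3 * (Real.exp 14 * 4 ^ 14)) by positivity)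
    have h3 := (tendsto_natCast_atTop_atTop (R := ℝ)).eventually h2
    filter_upwards [h3, eventually_ge_atTop 1] with w hw hw1
    have hw' : (1 : ℝ) ≤ w := by exact_mod_cast hw1
    have hl0 : 0 ≤ Real.log w := Real.log_nonneg hw'
    rw [Real.norm_of_nonneg (by positivity), Real.norm_of_nonneg (by linarith)] at hw
    have hc : (0 : ℝ) < Real.exp 14 * 4 ^ 14 := by positivity
    calc Real.exp 14 * (4 * Real.log w) ^ 14
        = (Real.exp 14 * 4 ^ 14) * Real.log w ^ 14 := by rw [mul_pow]; ring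
      _ ≤ (Real.exp 14 * 4 ^ 14) * (ε / (3 * (Real.exp 14 * 4 ^ 14)) * w) :=
          mul_le_mul_of_nonneg_left hw hc.le
      _ = ε / 3 * w := by field_simp
  filter_upwards [hK, hS, hL, eventually_ge_atTop 2] with w hKw hSw hLw hw2
  intro b hb t
  have hG0 := Gz_pos w
  have hwR : (2 : ℝ) ≤ w := by exact_mod_cast hw2
  have hb0 : (0 : ℝ) ≤ b := Nat.cast_nonneg b
  have h1 := hKw (fun p x => yI p (t + (x : ℤ))) (adm_yI hXSB t) b
  have e1 : ∏ p ∈ Ps w, (1 - nu (fun p x => yI p (t + (x : ℤ))) p / (p : ℝ)) = Gz w := by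
    rw [← hXSB.dens]
    unfold gS
    refine prod_congr rfl fun p hp => ?_
    have hp' := mem_Ps.1 hp
    rw [nu_yI hXSB hp'.2.2 hp'.1]
  rw [e1] at h1
  have e2 : ∑ x ∈ range b, ∏ p ∈ Ps w, (1 - yI p (t + (x : ℤ))) = Nb (XS (Ps w)) b t := rfl
  rw [e2] at h1
  rw [mul_comm (Gz w) (b : ℝ)]
  refine h1.trans ?_
  -- the first error
  have hinv := inv_Gz_le w
  have hG1 : Real.exp (-(10 / 3 * Sz w)) ≤ Gz w := by
    rw [Real.exp_neg]
    exact inv_le_of_inv_le₀ hG0 hinv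
  have h2 : Real.exp (-(5 * Sz w)) ≤ ε / 3 * Gz w := by
    have h3 : Real.exp (-(5 * Sz w)) = Real.exp (-(5 / 3 * Sz w)) * Real.exp (-(10 / 3 * Sz w)) := by
      rw [← Real.exp_add]; congr 1; ring
    rw [h3]
    exact mul_le_mul hSw hG1 (Real.exp_pos _).le (by positivity)
  have h4 : (b : ℝ) * Real.exp (-(5 * Sz w)) ≤ ε / 3 * (b * Gz w) := by
    have := mul_le_mul_of_nonneg_left h2 hb0
    linarith
  -- the second error
  have h5 : (Gz w)⁻¹ ≤ ε / 3 * w := by
    refine (inv_Gz_le_pow w).trans (le_trans ?_ hLw)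
    apply mul_le_mul_of_nonneg_left _ (Real.exp_pos _).le
    exact pow_le_pow_left₀ (by linarith [LL_ge_one w]) (LL_le w hw2) 14
  have h6 : 1 ≤ ε / 3 * w * Gz w := by
    rw [inv_le_iff_one_le_mul₀ hG0] at h5
    exact h5
  have h7 : (w : ℝ) ^ K * w ≤ b := by
    have : ((w ^ (K + 1) : ℕ) : ℝ) ≤ b := by exact_mod_cast hb
    push_cast at this
    rw [pow_succ] at this
    exact this
  have h8 : (w : ℝ) ^ K ≤ ε / 3 * (b * Gz w) := by
    have h9 : (0 : ℝ) ≤ (w : ℝ) ^ K := by positivity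
    calc (w : ℝ) ^ K = (w : ℝ) ^ K * 1 := (mul_one _).symm
      _ ≤ (w : ℝ) ^ K * (ε / 3 * w * Gz w) := mul_le_mul_of_nonneg_left h6 h9
      _ = ε / 3 * Gz w * ((w : ℝ) ^ K * w) := by ring
      _ ≤ ε / 3 * Gz w * b := mul_le_mul_of_nonneg_left h7 (by positivity)
      _ = _ := by ring
  linarith

end Pool.Agent.Helper57.TB
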