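import Pool.Agent.Helper33.TB.Goals

/-!
# Project TB (MP_74f661_nt), packet P1: the basic inequality in one block
-/

set_option autoImplicit false

open Finset

namespace Pool.Agent.Helper57.TB

open Pool.Agent.Helper33.TB

theorem sgn_abs (m : ℕ) (x : ℝ) : |(-1 : ℝ) ^ m * x| = |x| := by
  rw [abs_mul, abs_pow, abs_neg, abs_one, one_pow, one_mul]

theorem Nb_mono {X : ℤ → ℝ} (h0 : ∀ t, 0 ≤ X t) {m n : ℕ} (h : m ≤ n) (t : ℤ) :
    Nb X m t ≤ Nb X n t := by
  unfold Nb
  exact sum_le_sum_of_subset_of_nonneg (range_subset_range.2 h) (fun _ _ _ => h0 _)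

theorem p1 : StmtP1 := by
  intro X τ s F V hX hτ hs hs1 hF hV hτF b t
  have hX0 : ∀ t, 0 ≤ X t := fun t => by rcases hX t with h | h <;> simp [h]
  set N : ℝ := Nb X (b + 1) t with hN
  have hN0 : 0 ≤ N := by
    rw [hN]; unfold Nb; exact sum_nonneg fun i _ => hX0 _
  let G : ℕ → ℝ := fun m => (-1) ^ m * F (t + (m : ℤ))
  let U : ℕ → ℝ := fun m => (-1) ^ m * V (t + (m : ℤ))
  have hcast : ∀ m : ℕ, t + ((m + 1 : ℕ) : ℤ) = t + (m : ℤ) + 1 := fun m => by push_cast; ring
  have hG : ∀ m, |G m - G (m + 1)| ≤ 2 * X (t + ((m + 1 : ℕ) : ℤ)) := by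
    intro m
    have h1 : G m - G (m + 1) = (-1) ^ m * (X (t + ((m + 1 : ℕ) : ℤ)) *
        (-1 + τ * F (t + ((m + 1 : ℕ) : ℤ)))) := by
      change (-1) ^ m * F (t + (m : ℤ)) - (-1) ^ (m + 1) * F (t + ((m + 1 : ℕ) : ℤ)) = _
      rw [hF (t + (m : ℤ)), ← hcast, pow_succ]
      ring
    rw [h1, sgn_abs, abs_mul, abs_of_nonneg (hX0 _)]
    have h2 : |-1 + τ * F (t + ((m + 1 : ℕ) : ℤ))| ≤ 2 := by
      have h3 := hτF (t + ((m + 1 : ℕ) : ℤ))
      have h4 : |τ * F (t + ((m + 1 : ℕ) : ℤ))| ≤ 1 := by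
        rw [abs_mul, abs_of_nonneg hτ]; exact h3
      rw [abs_le] at h4 ⊢
      constructor <;> linarith [h4.1, h4.2]
    nlinarith [hX0 (t + ((m + 1 : ℕ) : ℤ))]
  have hGb : ∀ k m, m + k ≤ b → |G m - G (m + k)| ≤ 2 * (Nb X (m + k + 1) t - Nb X (m + 1) t) := by
    intro k
    induction k with
    | zero => intro m _; simp
    | succ k ih =>
      intro m hm
      have h1 := ih m (by omega)
      have h2 := hG (m + k)
      have h3 : Nb X (m + (k + 1) + 1) t = Nb X (m + k + 1) t + X (t + ((m + k + 1 : ℕ) : ℤ)) := by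
        unfold Nb
        rw [show m + (k + 1) + 1 = (m + k + 1) + 1 by ring, sum_range_succ]
      have h4 : G m - G (m + (k + 1)) = (G m - G (m + k)) + (G (m + k) - G (m + k + 1)) := by
        rw [show m + (k + 1) = m + k + 1 by ring]; ring
      rw [h4, h3]
      refine (abs_add_le _ _).trans ?_
      linarith
  have hGb' : ∀ m, m ≤ b → |G m - G b| ≤ 2 * N := by
    intro m hm
    have h1 := hGb (b - m) m (by omega)
    rw [show m + (b - m) = b by omega] at h1
    have h2 : 0 ≤ Nb X (m + 1) t := by unfold Nb; exact sum_nonneg fun i _ => hX0 _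
    rw [← hN] at h1
    linarith
  have hU : ∀ m, U (m + 1) = (-1) ^ m * X (t + (m : ℤ)) + (1 - s) * U m := by
    intro m
    change (-1) ^ (m + 1) * V (t + ((m + 1 : ℕ) : ℤ)) = (-1) ^ m * X (t + (m : ℤ))
      + (1 - s) * ((-1) ^ m * V (t + (m : ℤ)))
    rw [hcast, hV (t + (m : ℤ)), pow_succ]
    ring
  have hU0 : |U 0| = |V t| := by
    change |(-1) ^ 0 * V (t + ((0 : ℕ) : ℤ))| = |V t|
    simp
  have hUa : ∀ m, |U m| ≤ |V t| + Nb X m t := by
    intro m
    induction m with
    | zero => rw [hU0]; simp [Nb]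
    | succ m ih =>
      rw [hU m]
      have h1 : Nb X (m + 1) t = Nb X m t + X (t + (m : ℤ)) := by
        unfold Nb; rw [sum_range_succ]
      have h2 : |(1 - s) * U m| ≤ |U m| := by
        rw [abs_mul, abs_of_nonneg (by linarith : 0 ≤ 1 - s)]
        nlinarith [abs_nonneg (U m)]
      have h3 : |(-1 : ℝ) ^ m * X (t + (m : ℤ))| = X (t + (m : ℤ)) := by
        rw [sgn_abs, abs_of_nonneg (hX0 _)]
      refine (abs_add_le _ _).trans ?_
      rw [h3, h1]
      linarith
  have hUN : ∀ m, m ≤ b → |U m| ≤ |V t| + N := by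
    intro m hm
    refine (hUa m).trans ?_
    have := Nb_mono hX0 (show m ≤ b + 1 by omega) t
    rw [hN]
    linarith
  have hUd : ∀ m, m ≤ b → |U m - U 0| ≤ Nb X m t + s * m * (|V t| + N) := by
    intro m
    induction m with
    | zero => intro _; simp [Nb]
    | succ m ih =>
      intro hm
      have h0 := ih (by omega)
      have h1 : Nb X (m + 1) t = Nb X m t + X (t + (m : ℤ)) := by
        unfold Nb; rw [sum_range_succ]
      have h2 : U (m + 1) - U 0 = (U m - U 0) + ((-1) ^ m * X (t + (m : ℤ)) + -(s * U m)) := by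
        rw [hU m]; ring
      have h3 : |(-1 : ℝ) ^ m * X (t + (m : ℤ))| = X (t + (m : ℤ)) := by
        rw [sgn_abs, abs_of_nonneg (hX0 _)]
      have h4 : |-(s * U m)| ≤ s * (|V t| + N) := by
        rw [abs_neg, abs_mul, abs_of_nonneg hs]
        exact mul_le_mul_of_nonneg_left (hUN m (by omega)) hs
      have h5 := abs_add_le ((-1 : ℝ) ^ m * X (t + (m : ℤ))) (-(s * U m))
      rw [h2]
      refine (abs_add_le _ _).trans ?_
      rw [h1]
      push_cast
      have h6 : s * ((m : ℝ) + 1) * (|V t| + N) = s * m * (|V t| + N) + s * (|V t| + N) := by ring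
      rw [h6]
      linarith
  have hUd' : ∀ m, m ≤ b → |U m - U 0| ≤ N + s * b * (|V t| + N) := by
    intro m hm
    refine (hUd m hm).trans ?_
    have h1 := Nb_mono hX0 (show m ≤ b + 1 by omega) t
    have h2 : s * m * (|V t| + N) ≤ s * b * (|V t| + N) := by
      apply mul_le_mul_of_nonneg_right _ (by positivity)
      apply mul_le_mul_of_nonneg_left _ hs
      exact_mod_cast hm
    rw [← hN] at h1
    linarith
  have hGbF : |G b| = |F (t + (b : ℤ))| := sgn_abs _ _
  set D : ℝ := (N + s * b * (|V t| + N)) * |F (t + (b : ℤ))| + 2 * N * (|V t| + N) with hD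
  have hdiff : ∀ m, m ≤ b → |U m * G m - U 0 * G b| ≤ D := by
    intro m hm
    have h1 : U m * G m - U 0 * G b = (U m - U 0) * G b + U m * (G m - G b) := by ring
    rw [h1]
    refine (abs_add_le _ _).trans ?_
    rw [abs_mul (U m - U 0), abs_mul (U m), hGbF, hD]
    have h2 : |U m - U 0| * |F (t + (b : ℤ))| ≤ (N + s * b * (|V t| + N)) * |F (t + (b : ℤ))| :=
      mul_le_mul_of_nonneg_right (hUd' m hm) (abs_nonneg _)
    have h3 : |U m| * |G m - G b| ≤ (|V t| + N) * (2 * N) :=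
      mul_le_mul (hUN m hm) (hGb' m hm) (abs_nonneg _) (by positivity)
    linarith
  have hUG : ∀ m : ℕ, V (t + (m : ℤ)) * F (t + (m : ℤ)) = U m * G m := by
    intro m
    change _ = (-1) ^ m * V (t + (m : ℤ)) * ((-1) ^ m * F (t + (m : ℤ)))
    have : ((-1 : ℝ) ^ m) * (-1) ^ m = 1 := by rw [← mul_pow]; norm_num
    linear_combination (-(V (t + (m : ℤ)) * F (t + (m : ℤ)))) * this
  have hsum : ∑ m ∈ range b, (τ * X (t + (m : ℤ)) - s) * V (t + (m : ℤ)) * F (t + (m : ℤ))
      = (τ * Nb X b t - s * b) * (U 0 * G b)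
        + ∑ m ∈ range b, (τ * X (t + (m : ℤ)) - s) * (U m * G m - U 0 * G b) := by
    have h1 : (τ * Nb X b t - s * b) = ∑ m ∈ range b, (τ * X (t + (m : ℤ)) - s) := by
      unfold Nb
      rw [sum_sub_distrib, ← mul_sum, sum_const, card_range, nsmul_eq_mul]
      ring
    rw [h1, sum_mul, ← sum_add_distrib]
    refine sum_congr rfl fun m _ => ?_
    rw [mul_assoc, hUG]
    ring
  rw [hsum]
  refine (abs_add_le _ _).trans ?_
  have hpos : 0 ≤ D := by rw [hD]; positivity
  have e1 : |(τ * Nb X b t - s * b) * (U 0 * G b)|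
      = |τ * Nb X b t - s * b| * (|V t| * |F (t + (b : ℤ))|) := by
    rw [abs_mul, abs_mul, hU0, hGbF]
  have e2 : |∑ m ∈ range b, (τ * X (t + (m : ℤ)) - s) * (U m * G m - U 0 * G b)|
      ≤ (τ * N + s * b) * D := by
    refine (abs_sum_le_sum_abs _ _).trans ?_
    have h1 : ∀ m ∈ range b, |(τ * X (t + (m : ℤ)) - s) * (U m * G m - U 0 * G b)|
        ≤ (τ * X (t + (m : ℤ)) + s) * D := by
      intro m hm
      rw [abs_mul]
      apply mul_le_mul _ (hdiff m (mem_range.1 hm).le) (abs_nonneg _)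
      · have := hX0 (t + (m : ℤ)); positivity
      · have h2 := hX0 (t + (m : ℤ))
        have h3 : 0 ≤ τ * X (t + (m : ℤ)) := mul_nonneg hτ h2
        rw [abs_le]
        constructor <;> linarith
    refine (sum_le_sum h1).trans ?_
    rw [← sum_mul, sum_add_distrib, ← mul_sum, sum_const, card_range, nsmul_eq_mul]
    apply mul_le_mul_of_nonneg_right _ hpos
    have h2 : ∑ i ∈ range b, X (t + (i : ℤ)) ≤ N := by
      have := Nb_mono hX0 (show b ≤ b + 1 by omega) t
      rw [← hN] at this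
      exact this
    nlinarith
  rw [e1]
  have e3 : (τ * N + s * b) * D = (τ * N + s * b) *
      ((N + s * b * (|V t| + N)) * |F (t + (b : ℤ))| + 2 * N * (|V t| + N)) := by rw [hD]
  rw [← e3]
  linarith

end Pool.Agent.Helper57.TB
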